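import Pool.Agent.P.MP_32bf8a_an.PR3.Form

/-!
Real polynomials near the point `I` behave like complex polynomials of half the degree.
-/

open Filter Topology Complex Polynomial
open scoped ComplexConjugate

namespace Pool.Agent.P.MP_32bf8a_an.PR

/-- `M` weighted equations at non-real points force dependence of real pairs of degree `≤ D` -/
def SP (D M E : ℕ) {ρ : Type} (m : ρ → ℂ → ℂ) : Prop :=
  ∃ (ι : Type) (_ : Fintype ι) (ζ κ : ι → ℂ), (∀ s, (ζ s).im ≠ 0) ∧
    ∀ r (g a b : ℂ[X]), g ≠ 0 → g.natDegree ≤ E → cj a = a → cj b = b → a.natDegree ≤ D →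
      b.natDegree ≤ D → (∀ h : ℂ[X], cj h = h → h.degree < M →
        ∑ s, (κ s * m r (ζ s) * h.eval (ζ s)).re * normSq (g.eval (ζ s)) *
          im2 (a.eval (ζ s)) (b.eval (ζ s)) = 0) → Dep a b

/-- the limit form of `SP`, for complex pairs of half the degree -/
def CP (D M E : ℕ) {ρ : Type} (μ : ρ → ℂ) : Prop :=
  ∃ (ι : Type) (_ : Fintype ι) (x κ : ι → ℂ),
    ∀ r (g A B : ℂ[X]), g ≠ 0 → g.natDegree ≤ E → A.natDegree ≤ D / 2 → B.natDegree ≤ D / 2 →
      (Even D → im2 (A.coeff (D / 2)) (B.coeff (D / 2)) = 0) →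
      (∀ (H : ℂ[X]) (t : ℝ), H.natDegree ≤ M / 2 → H.coeff (M / 2) = t * μ r → (Even M → t = 0) →
        ∑ s, (κ s * H.eval (x s)).re * normSq (g.eval (x s)) *
          im2 (A.eval (x s)) (B.eval (x s)) = 0) → Dep A B

theorem degree_sub_top {p q : ℂ[X]} {n : ℕ} (hp : p.degree < (n + 1 : ℕ)) (hq : q.Monic)
    (hn : q.natDegree = n) : (p - C (p.coeff n) * q).degree < n := by
  rw [degree_lt_iff_coeff_zero] at hp ⊢
  intro m hm
  rw [coeff_sub, coeff_C_mul]
  rcases hm.eq_or_lt with rfl | h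
  · rw [← hn, hq.coeff_natDegree, mul_one, sub_self]
  · rw [hp m h, coeff_eq_zero_of_natDegree_lt (hn.trans_lt h), mul_zero, sub_self]

theorem coeff_real {a : ℂ[X]} (h : cj a = a) (n : ℕ) : ((a.coeff n).re : ℂ) = a.coeff n := by
  apply conj_eq_iff_re.1
  have := congrArg (fun p : ℂ[X] => p.coeff n) h
  simpa using this

/-- the real polynomial with rescaled coordinates `c` -/
noncomputable def toP {N : ℕ} (η : ℝ) (c : Fin N → ℂ) : ℂ[X] :=
  ∑ n : Fin N, C (((η⁻¹ ^ (n : ℕ) : ℝ)) : ℂ) *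
    ((C ((c n).re : ℂ) + C ((c n).im : ℂ) * X) * (X ^ 2 + 1) ^ (n : ℕ))

/-- its value at `I + η w` -/
noncomputable def Phi {N : ℕ} (η : ℝ) (c : Fin N → ℂ) (w : ℂ) : ℂ :=
  ∑ n : Fin N, (((c n).re : ℂ) + ((c n).im : ℂ) * (I + η * w)) * (w * (2 * I + η * w)) ^ (n : ℕ)

theorem eval_toP {N : ℕ} {η : ℝ} (hη : η ≠ 0) (c : Fin N → ℂ) (w : ℂ) :
    (toP η c).eval (I + η * w) = Phi η c w := by
  rw [toP, Phi, eval_finsetSum]
  refine Finset.sum_congr rfl fun n _ => ?_
  have h1 : (I + η * w) ^ 2 + 1 = η * (w * (2 * I + η * w)) := by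
    linear_combination I_sq
  have h2 : (η : ℂ) ≠ 0 := ofReal_ne_zero.2 hη
  simp only [eval_mul, eval_C, eval_add, eval_X, eval_pow, eval_one, h1]
  push_cast
  rw [mul_pow (η : ℂ), inv_pow]
  field_simp

theorem Phi_zero {N : ℕ} (c : Fin N → ℂ) (w : ℂ) :
    Phi 0 c w = (ofFn N fun n => c n * (2 * I) ^ (n : ℕ)).eval w := by
  rw [eval_ofFn, Phi]
  refine Finset.sum_congr rfl fun n _ => ?_
  simp only [ofReal_zero, zero_mul, add_zero, re_add_im, mul_pow]
  ring

theorem Phi_comb {N : ℕ} (η a b : ℝ) (c d : Fin N → ℂ) (w : ℂ) :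
    Phi η (a • c + b • d) w = a * Phi η c w + b * Phi η d w := by
  simp only [Phi, Finset.mul_sum, ← Finset.sum_add_distrib]
  refine Finset.sum_congr rfl fun n _ => ?_
  simp only [Pi.add_apply, Pi.smul_apply, real_smul, add_re, add_im, re_ofReal_mul, im_ofReal_mul]
  push_cast
  ring

theorem toP_comb {N : ℕ} (η a b : ℝ) (c d : Fin N → ℂ) :
    toP η (a • c + b • d) = a • toP η c + b • toP η d := by
  simp only [toP, real_smul_poly, Finset.mul_sum, ← Finset.sum_add_distrib]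
  refine Finset.sum_congr rfl fun n _ => ?_
  simp only [Pi.add_apply, Pi.smul_apply, real_smul, add_re, add_im, re_ofReal_mul, im_ofReal_mul,
    ofReal_add, ofReal_mul, C_add, C_mul]
  ring

theorem toP_zero {N : ℕ} (η : ℝ) : toP η (0 : Fin N → ℂ) = 0 := by
  simp [toP]

theorem cj_toP {N : ℕ} (η : ℝ) (c : Fin N → ℂ) : cj (toP η c) = toP η c := by
  simp only [toP, cj, Polynomial.map_sum, Polynomial.map_mul, Polynomial.map_add,
    Polynomial.map_pow, map_C, map_X, Polynomial.map_one, conj_ofReal]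

theorem monic_quad (n : ℕ) : ((X ^ 2 + 1 : ℂ[X]) ^ n).Monic :=
  Monic.pow (by monicity!) n

theorem natDegree_quad (n : ℕ) : ((X ^ 2 + 1 : ℂ[X]) ^ n).natDegree = 2 * n := by
  rw [Monic.natDegree_pow (by monicity!), mul_comm]
  congr 1
  compute_degree!

theorem degree_toP {M : ℕ} (η : ℝ) (c : Fin (M / 2 + 1) → ℂ) (h1 : (c (Fin.last _)).im = 0)
    (h2 : Even M → c (Fin.last _) = 0) : (toP η c).degree < M := by
  have key : ∀ (n : ℕ) (k : ℕ) (u : ℂ) (p : ℂ[X]), p.natDegree ≤ k → k + 2 * n < M →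
      (C u * (p * (X ^ 2 + 1) ^ n)).degree < (M : WithBot ℕ) := by
    intro n k u p hp hk
    refine degree_le_natDegree.trans_lt (Nat.cast_lt.2 ?_)
    refine ((natDegree_C_mul_le _ _).trans natDegree_mul_le).trans_lt ?_
    rw [natDegree_quad]
    omega
  refine (degree_sum_le _ _).trans_lt ((Finset.sup_lt_iff (WithBot.bot_lt_coe _)).2 fun n _ => ?_)
  refine Fin.lastCases ?_ (fun i => ?_) n
  · rcases Nat.even_or_odd M with h | h
    · simp [h2 h]
    · refine key _ 0 _ _ (by simp [h1]) ?_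
      obtain ⟨k, rfl⟩ := h
      simp only [Fin.val_last]
      omega
  · refine key _ 1 _ _ (by compute_degree) ?_
    have := i.2
    simp only [Fin.val_castSucc]
    omega

theorem exists_toP_aux {η : ℝ} (hη : η ≠ 0) (N : ℕ) : ∀ a : ℂ[X], cj a = a →
    a.degree < (2 * N : ℕ) → ∃ c : Fin N → ℂ, a = toP η c ∧
      ∀ n : Fin N, (n : ℕ) + 1 = N → a.coeff (2 * n + 1) = 0 → (c n).im = 0 := by
  induction N with
  | zero =>
    intro a _ ha
    refine ⟨0, ?_, fun n => n.elim0⟩
    rw [toP_zero]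
    ext n
    exact (degree_lt_iff_coeff_zero _ _).1 ha n (by omega)
  | succ N ih =>
    intro a hr ha
    have d1 := degree_sub_top (p := a) (q := X * (X ^ 2 + 1) ^ N) (n := 2 * N + 1) ha
      (monic_X.mul (monic_quad N)) (by
        rw [monic_X.natDegree_mul (monic_quad N), natDegree_quad, natDegree_X, add_comm])
    rw [← coeff_real hr] at d1
    set β := (a.coeff (2 * N + 1)).re with hβ
    set a₁ := a - C (β : ℂ) * (X * (X ^ 2 + 1) ^ N) with ha₁
    have r1 : cj a₁ = a₁ := by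
      simp only [ha₁, cj, Polynomial.map_sub, Polynomial.map_mul, Polynomial.map_add,
        Polynomial.map_pow, map_C, map_X, Polynomial.map_one, conj_ofReal]
      rw [← cj, hr]
    have d2 := degree_sub_top d1 (monic_quad N) (natDegree_quad N)
    rw [← coeff_real r1] at d2
    set α := (a₁.coeff (2 * N)).re
    obtain ⟨c, hc, -⟩ := ih (a₁ - C (α : ℂ) * (X ^ 2 + 1) ^ N) (by
      simp only [cj, Polynomial.map_sub, Polynomial.map_mul, Polynomial.map_add,
        Polynomial.map_pow, map_C, map_X, Polynomial.map_one, conj_ofReal]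
      rw [← cj, r1]) d2
    refine ⟨Fin.snoc c ⟨η ^ N * α, η ^ N * β⟩, ?_, fun n hn h0 => ?_⟩
    · rw [toP, Fin.sum_univ_castSucc]
      simp only [Fin.snoc_castSucc, Fin.snoc_last, Fin.val_castSucc, Fin.val_last]
      rw [← toP, ← hc, ha₁]
      have h3 : (C ((η⁻¹ ^ N : ℝ) : ℂ) * C ((η ^ N : ℝ) : ℂ) : ℂ[X]) = 1 := by
        rw [← C_mul, ← ofReal_mul, ← mul_pow, inv_mul_cancel₀ hη, one_pow, ofReal_one, C_1]
      simp only [ofReal_mul, C_mul]
      linear_combination (-((C (α : ℂ) + C (β : ℂ) * X) * (X ^ 2 + 1) ^ N)) * h3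
    · obtain rfl : n = Fin.last N := Fin.ext (by simpa using hn)
      simp only [Fin.snoc_last, Fin.val_last] at h0 ⊢
      rw [hβ, h0, zero_re, mul_zero]

theorem exists_toP {η : ℝ} (hη : η ≠ 0) {D : ℕ} {a : ℂ[X]} (hr : cj a = a)
    (ha : a.natDegree ≤ D) :
    ∃ c : Fin (D / 2 + 1) → ℂ, a = toP η c ∧ (Even D → (c (Fin.last _)).im = 0) := by
  obtain ⟨c, hc, h⟩ := exists_toP_aux hη (D / 2 + 1) a hr
    (degree_le_natDegree.trans_lt (Nat.cast_lt.2 (by omega)))
  refine ⟨c, hc, fun he => h _ rfl (coeff_eq_zero_of_natDegree_lt ?_)⟩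
  obtain ⟨k, rfl⟩ := he
  simp only [Fin.val_last]
  omega

theorem continuous_ofFn_eval {N : ℕ} (w : ℂ) :
    Continuous fun c : Fin N → ℂ => (ofFn N c).eval w := by
  simp only [eval_ofFn]
  fun_prop

theorem ofFn_eval_comb {N : ℕ} (w : ℂ) (a b : ℝ) (c d : Fin N → ℂ) :
    (ofFn N (a • c + b • d)).eval w = a * (ofFn N c).eval w + b * (ofFn N d).eval w := by
  rw [ofFn_comb, real_smul_poly, real_smul_poly]
  simp

theorem ofFn_eval_smul {N : ℕ} (w : ℂ) (a : ℝ) (c : Fin N → ℂ) :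
    (ofFn N (a • c)).eval w = a * (ofFn N c).eval w := by
  have := ofFn_eval_comb w a 0 c c
  rwa [zero_smul, add_zero, ofReal_zero, zero_mul, add_zero] at this

theorem ofFn_ne_zero {N : ℕ} {c : Fin N → ℂ} : ofFn N c ≠ 0 ↔ c ≠ 0 :=
  (map_ne_zero_iff _ (injective_ofFn N))

theorem coeff_ofFn_last {N : ℕ} (c : Fin (N + 1) → ℂ) :
    (ofFn (N + 1) c).coeff N = c (Fin.last N) :=
  ofFn_coeff_eq_val_of_lt c (Nat.lt_succ_self N)

theorem sp_of_cp {D M E : ℕ} {ρ : Type} [Finite ρ] {m : ρ → ℂ → ℂ}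
    (hm : ∀ r, ContinuousAt (m r) I ∧ m r I ≠ 0)
    (h : CP D M E fun r => m r I * (2 * I) ^ (M / 2)) : SP D M E m := by
  obtain ⟨ι, _, x, κ, h⟩ := h
  have hI : (2 * I : ℂ) ≠ 0 := by simp
  have h1 := fun r => eventually_sum
    (J := {e : Fin (M / 2 + 1) → ℂ // (e (Fin.last _)).im = 0 ∧ (Even M → e (Fin.last _) = 0)})
    (fun (η : ℝ) e s => (κ s * m r (I + η * x s) * Phi η e.1 (x s)).re)
    (fun s (g : Fin (E + 1) → ℂ) => (ofFn _ g).eval (x s))
    (fun η s (c : Fin (D / 2 + 1) → ℂ) => Phi η c (x s)) (Fin.last _) (Even D) 0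
    (fun e s => by
      have : ContinuousAt (fun η : ℝ => m r (I + η * x s)) 0 :=
        ContinuousAt.comp (g := m r) (by simpa using (hm r).1) (by fun_prop)
      refine continuous_re.continuousAt.comp ((continuousAt_const.mul this).mul ?_)
      unfold Phi
      fun_prop)
    (fun s => continuous_ofFn_eval _) (fun s => ofFn_eval_smul _)
    (fun s c => by unfold Phi; fun_prop) (fun η s a b p q => Phi_comb η a b p q _) (by
      intro g hg p q h2 h3
      have h4 := h r (ofFn _ g) (ofFn _ fun n => p n * (2 * I) ^ (n : ℕ))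
        (ofFn _ fun n => q n * (2 * I) ^ (n : ℕ)) (ofFn_ne_zero.2 hg) (natDegree_ofFn _)
        (natDegree_ofFn _) (natDegree_ofFn _) (fun he => by
          rw [coeff_ofFn_last, coeff_ofFn_last, mul_comm (p _), mul_comm (q _), im2_mul, h2 he,
            mul_zero]) (fun H t hH ht hM => by
          have hl : H.coeff (M / 2) / (m r I * (2 * I) ^ (M / 2)) = t := by
            rw [ht, mul_div_cancel_right₀ _ (mul_ne_zero (hm r).2 (pow_ne_zero _ hI))]
          have h5 := h3 ⟨fun n => H.coeff n / (m r I * (2 * I) ^ (n : ℕ)),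
            by simp only [Fin.val_last, hl, ofReal_im],
            fun he => by simp only [Fin.val_last, hl, hM he, ofReal_zero]⟩
          simp only [Phi_zero, ofReal_zero, zero_mul, add_zero] at h5
          rw [← h5]
          refine Finset.sum_congr rfl fun s _ => ?_
          congr 3
          rw [eval_ofFn, eval_eq_sum_range' (Nat.lt_succ_of_le hH), Finset.sum_range, mul_assoc,
            Finset.mul_sum _ _ (m r I)]
          congr 1
          refine Finset.sum_congr rfl fun n _ => ?_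
          have := (hm r).2
          field_simp)
      obtain ⟨a, b, hab, h5⟩ := dep_ofFn.1 h4
      refine ⟨a, b, hab, funext fun n => ?_⟩
      have h6 := congrFun h5 n
      simp only [Pi.add_apply, Pi.smul_apply, real_smul, Pi.zero_apply] at h6 ⊢
      apply mul_right_cancel₀ (pow_ne_zero (n : ℕ) hI)
      linear_combination h6)
  have h2 : ∀ s, ∀ᶠ η : ℝ in 𝓝 0, (I + η * x s).im ≠ 0 := fun s =>
    ContinuousAt.eventually_ne (g := fun η : ℝ => (I + η * x s).im) (by fun_prop) (by simp)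
  obtain ⟨η, ⟨h3, h4⟩, hη⟩ := ((((eventually_all.2 h1).and (eventually_all.2 h2)).filter_mono
    (nhdsWithin_le_nhds (s := {0}ᶜ))).and self_mem_nhdsWithin).exists
  have hη : η ≠ 0 := hη
  refine ⟨ι, inferInstance, fun s => I + η * x s, κ, h4, fun r g a b hg dg ra rb da db he => ?_⟩
  obtain ⟨c, rfl, hc⟩ := exists_toP hη ra da
  obtain ⟨d, rfl, hd⟩ := exists_toP hη rb db
  obtain ⟨G, hG⟩ := exists_ofFn (N := E) (p := g.comp (C I + C (η : ℂ) * X))
    (natDegree_comp_le.trans ((Nat.mul_le_mul dg (by compute_degree)).trans (mul_one E).le))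
  have hG' : ∀ w, (ofFn _ G).eval w = g.eval (I + η * w) := fun w => by
    rw [← hG]; simp
  obtain ⟨u, v, huv, h5⟩ := h3 r G (by
    rintro rfl
    refine hg (Polynomial.funext fun z => ?_)
    have h6 := hG' ((z - I) / η)
    rw [mul_div_cancel₀ _ (ofReal_ne_zero.2 hη), add_sub_cancel] at h6
    rw [← h6, map_zero, eval_zero, eval_zero]) c d (fun he => by simp [im2, hc he, hd he]) fun e => by
      have h6 := he (toP η e.1) (cj_toP _ _) (degree_toP _ _ e.2.1 e.2.2)
      simpa only [eval_toP hη, hG'] using h6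
  exact ⟨u, v, huv, by rw [← toP_comb, h5, toP_zero]⟩

end Pool.Agent.P.MP_32bf8a_an.PR
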