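import Pool.Agent.P.MP_32bf8a_an.PR.Open

/-!
Openness for families of alternating forms with a weight parameter, and pairs of polynomials with
real ratio on the real line.
-/

open Filter Topology Complex Polynomial
open scoped ComplexConjugate

namespace Pool.Agent.P.MP_32bf8a_an.PR

theorem Dep.map {E F : Type*} [AddCommGroup E] [Module ℝ E] [AddCommGroup F] [Module ℝ F]
    (f : E →ₗ[ℝ] F) {p q : E} (h : Dep p q) : Dep (f p) (f q) := by
  obtain ⟨a, b, hab, h⟩ := h
  exact ⟨a, b, hab, by rw [← map_smul, ← map_smul, ← map_add, h, map_zero]⟩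

theorem eventually_form {E G T J V : Type*} [NormedAddCommGroup E] [NormedSpace ℝ E]
    [FiniteDimensional ℝ E] [NormedAddCommGroup G] [NormedSpace ℝ G] [FiniteDimensional ℝ G]
    [TopologicalSpace T] [TopologicalSpace V] [T1Space V] [Zero V]
    (Ω : T → J → G → E → E → V) (t₀ : T)
    (hc : ∀ j x, ContinuousAt (fun z : T × (G × E × E) => Ω z.1 j z.2.1 z.2.2.1 z.2.2.2) (t₀, x))
    (hs : ∀ t g p q (r a b s : ℝ), (∀ j, Ω t j g p q = 0) →
      ∀ j, Ω t j (r • g) (a • p) (b • (q - s • p)) = 0)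
    (h0 : ∀ g ≠ 0, ∀ p q, (∀ j, Ω t₀ j g p q = 0) → Dep p q) :
    ∀ᶠ t in 𝓝 t₀, ∀ g ≠ 0, ∀ p q, (∀ j, Ω t j g p q = 0) → Dep p q := by
  have : ProperSpace E := FiniteDimensional.proper ℝ E
  have : ProperSpace G := FiniteDimensional.proper ℝ G
  set C : Set (E × E) := {x | ‖x.1‖ = 1 ∧ ‖x.2‖ = 1 ∧ ∀ s : ℝ, 1 ≤ ‖x.2 - s • x.1‖} with hC
  have hcl : IsClosed C := by
    have h1 : IsClosed {x : E × E | ‖x.1‖ = 1} := isClosed_eq (by fun_prop) continuous_const
    have h2 : IsClosed {x : E × E | ‖x.2‖ = 1} := isClosed_eq (by fun_prop) continuous_const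
    have h3 : IsClosed (⋂ s : ℝ, {x : E × E | 1 ≤ ‖x.2 - s • x.1‖}) :=
      isClosed_iInter fun s => isClosed_le continuous_const (by fun_prop)
    convert h1.inter (h2.inter h3) using 1
    ext x; simp [hC]
  have hcp : IsCompact C := by
    refine Metric.isCompact_of_isClosed_isBounded hcl ?_
    refine (Metric.isBounded_closedBall (x := (0 : E × E)) (r := 1)).subset ?_
    rintro x ⟨h1, h2, -⟩
    simp [Prod.norm_def, h1, h2]
  have hev := ((isCompact_sphere (0 : G) 1).prod hcp).eventually_forall_of_forall_eventually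
    (x₀ := t₀) (P := fun t x => ∃ j, Ω t j x.1 x.2.1 x.2.2 ≠ 0) (by
      rintro ⟨g, p, q⟩ ⟨hg, h1, h2, h3⟩
      have hg0 : g ≠ 0 := by
        rintro rfl
        simp at hg
      have : ∃ j, Ω t₀ j g p q ≠ 0 := by
        by_contra hn
        push Not at hn
        obtain ⟨a, b, hab, h⟩ := h0 g hg0 p q hn
        by_cases hb : b = 0
        · have ha : a ≠ 0 := by tauto
          rw [hb, zero_smul, add_zero, smul_eq_zero] at h
          rcases h with h | h
          · exact ha h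
          · simp [h] at h1
        · have h4 := h3 (-(a / b))
          have h5 : q - (-(a / b)) • p = b⁻¹ • (a • p + b • q) := by
            rw [smul_add, smul_smul, smul_smul, inv_mul_cancel₀ hb, one_smul, neg_smul,
              sub_neg_eq_add, add_comm, div_eq_inv_mul]
          simp only at h4
          rw [h5, h] at h4
          simp at h4
          linarith
      obtain ⟨j, hj⟩ := this
      exact ((hc j (g, p, q)).eventually_ne hj).mono fun z hz => ⟨j, hz⟩)
  refine hev.mono fun t ht g hg p q hpq => ?_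
  by_contra hd
  have hp : p ≠ 0 := by
    rintro rfl
    exact hd ⟨1, 0, by simp, by simp⟩
  have hpn : ‖p‖ ≠ 0 := norm_ne_zero_iff.2 hp
  set p' : E := ‖p‖⁻¹ • p with hp'
  have hp1 : ‖p'‖ = 1 := by rw [hp', norm_smul, norm_inv, norm_norm, inv_mul_cancel₀ hpn]
  have hcf : Continuous fun s : ℝ => ‖q - s • p'‖ := by fun_prop
  obtain ⟨s, hs'⟩ := hcf.exists_forall_le_of_isBounded 0 (by
    refine (Metric.isBounded_closedBall (x := (0 : ℝ)) (r := 2 * ‖q‖)).subset ?_
    intro s hs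
    simp only [zero_smul, sub_zero, Set.mem_ofPred_eq] at hs
    have h1 : ‖s • p'‖ ≤ ‖q‖ + ‖q - s • p'‖ := by
      have := norm_sub_le q (q - s • p')
      simpa using this
    rw [norm_smul, hp1, mul_one] at h1
    simp only [Metric.mem_closedBall, dist_zero_right]
    linarith)
  have hq : q - s • p' ≠ 0 := by
    intro h
    refine hd ⟨-(s * ‖p‖⁻¹), 1, by simp, ?_⟩
    rw [← h, hp', smul_smul, one_smul, neg_smul, sub_eq_neg_add]
  have hqn : 0 < ‖q - s • p'‖ := norm_pos_iff.2 hq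
  set r : ℝ := ‖q - s • p'‖ with hr
  have hmem : (p', r⁻¹ • (q - s • p')) ∈ C := by
    refine ⟨hp1, ?_, fun s' => ?_⟩
    · simp only
      rw [norm_smul, norm_inv, Real.norm_eq_abs, abs_of_pos hqn, inv_mul_cancel₀ hqn.ne']
    · have h1 : r⁻¹ • (q - s • p') - s' • p' = r⁻¹ • (q - (s + r * s') • p') := by
        rw [add_smul, ← sub_sub, smul_sub r⁻¹ _ ((r * s') • p'), smul_smul r⁻¹ (r * s'), ← mul_assoc,
          inv_mul_cancel₀ hqn.ne', one_mul]
      simp only
      rw [h1, norm_smul, norm_inv, Real.norm_eq_abs, abs_of_pos hqn, inv_mul_eq_div,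
        le_div_iff₀ hqn, one_mul]
      exact hs' _
  have hg1 : ‖g‖⁻¹ • g ∈ Metric.sphere (0 : G) 1 := by
    rw [mem_sphere_zero_iff_norm, norm_smul, norm_inv, norm_norm,
      inv_mul_cancel₀ (norm_ne_zero_iff.2 hg)]
  obtain ⟨j, hj⟩ := ht (‖g‖⁻¹ • g, p', r⁻¹ • (q - s • p')) ⟨hg1, hmem⟩
  apply hj
  have := hs t g p q ‖g‖⁻¹ ‖p‖⁻¹ r⁻¹ (s * ‖p‖⁻¹) hpq j
  rwa [← smul_smul] at this

/-- the basic alternating form on the complex plane -/
def im2 (a b : ℂ) : ℝ := (a * conj b).im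

theorem im2_smul (a b s : ℝ) (x y : ℂ) : im2 (a * x) (b * (y - s * x)) = a * b * im2 x y := by
  simp only [im2, mul_im, mul_re, ofReal_re, ofReal_im, conj_re, conj_im, sub_re, sub_im]
  ring

theorem im2_mul (g x y : ℂ) : im2 (g * x) (g * y) = normSq g * im2 x y := by
  simp only [im2, mul_im, mul_re, conj_re, conj_im, normSq_apply]
  ring

theorem im2_eq (x y : ℂ) : x * conj y - conj x * y = 2 * I * im2 x y := by
  apply Complex.ext
  · simp [im2]
  · simp [im2]; ring

theorem continuous_im2 : Continuous fun z : ℂ × ℂ => im2 z.1 z.2 := by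
  unfold im2
  fun_prop

@[fun_prop]
theorem ContinuousAt.im2 {X : Type*} [TopologicalSpace X] {f g : X → ℂ} {x : X}
    (hf : ContinuousAt f x) (hg : ContinuousAt g x) :
    ContinuousAt (fun z => im2 (f z) (g z)) x :=
  continuous_im2.continuousAt.comp (hf.prodMk hg)

/-- coefficientwise conjugation -/
noncomputable abbrev cj (p : ℂ[X]) : ℂ[X] := p.map (starRingEnd ℂ)

theorem eval_cj (p : ℂ[X]) (z : ℂ) : (cj p).eval (conj z) = conj (p.eval z) := by
  rw [cj, eval_map, eval₂_at_apply]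

theorem eval_cj_real (p : ℂ[X]) {z : ℂ} (hz : conj z = z) : (cj p).eval z = conj (p.eval z) := by
  rw [← eval_cj, hz]

theorem cj_cj (p : ℂ[X]) : cj (cj p) = p := by
  ext n; simp

theorem natDegree_cj (p : ℂ[X]) : (cj p).natDegree = p.natDegree :=
  natDegree_map_eq_of_injective (RingHom.injective _) p

theorem degree_cj (p : ℂ[X]) : (cj p).degree = p.degree :=
  degree_map_eq_of_injective (RingHom.injective _) p

theorem cj_ne_zero {p : ℂ[X]} (h : p ≠ 0) : cj p ≠ 0 := fun e => h (by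
  rw [← cj_cj p, e, cj, Polynomial.map_zero])

theorem real_smul_poly (r : ℝ) (f : ℂ[X]) : r • f = C (r : ℂ) * f := by
  ext n; simp

theorem line_factor {P Q : ℂ[X]} (hid : P * cj Q = cj P * Q) (hdep : ¬ Dep P Q) :
    ∃ g a b : ℂ[X], g ≠ 0 ∧ a ≠ 0 ∧ b ≠ 0 ∧ cj a = a ∧ cj b = b ∧ P = g * a ∧ Q = g * b := by
  have hP0 : P ≠ 0 := by
    rintro rfl
    exact hdep ⟨1, 0, by simp, by simp⟩
  have hQ0 : Q ≠ 0 := by
    rintro rfl
    exact hdep ⟨0, 1, by simp, by simp⟩
  obtain ⟨p, q, g, hrel, rfl, rfl⟩ := UniqueFactorizationMonoid.exists_reduced_factors P hP0 Q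
  have hg : g ≠ 0 := left_ne_zero_of_mul hP0
  have hp : p ≠ 0 := right_ne_zero_of_mul hP0
  have hq : q ≠ 0 := right_ne_zero_of_mul hQ0
  simp only [cj, Polynomial.map_mul] at hid
  have h5 : p * cj q = cj p * q := by
    apply mul_left_cancel₀ (mul_ne_zero hg (cj_ne_zero hg))
    linear_combination hid
  obtain ⟨s, hs⟩ : p ∣ cj p := hrel.dvd_of_dvd_mul_right ⟨_, h5.symm⟩
  have hs' : cj q = q * s := by
    apply mul_left_cancel₀ hp
    rw [h5, hs]; ring
  have hs0 : s ≠ 0 := by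
    rintro rfl
    exact cj_ne_zero hp (by simpa using hs)
  have d1 := natDegree_cj p
  rw [hs, natDegree_mul hp hs0] at d1
  obtain ⟨σ, rfl⟩ : ∃ σ, s = C σ := ⟨_, eq_C_of_natDegree_le_zero (by omega)⟩
  have hC : ∀ (c : ℂ) (f : ℂ[X]), cj (C c * f) = C (conj c) * cj f := fun c f => by
    rw [cj, Polynomial.map_mul, map_C]
  have hσ : conj σ * σ = 1 := by
    have e1 := cj_cj p
    rw [hs, mul_comm p, hC, hs] at e1
    have e2 : C (conj σ * σ) * p = C 1 * p := by
      rw [C_mul, C_1]; linear_combination e1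
    exact C_injective (mul_right_cancel₀ hp e2)
  obtain ⟨c, rfl⟩ := IsAlgClosed.exists_pow_nat_eq σ two_pos
  have hc : conj c * c = 1 := by
    have e1 : ‖c‖ ^ 4 = 1 := by
      have := congrArg norm hσ
      simp only [norm_mul, norm_pow, map_pow, RCLike.norm_conj, norm_one] at this
      linear_combination this
    have e2 : ‖c‖ = 1 := (pow_eq_one_iff_of_nonneg (norm_nonneg _) (by norm_num)).1 e1
    rw [conj_mul', e2]; simp
  have hc' : C (conj c) * C c = 1 := by rw [← C_mul, hc, C_1]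
  have hc0 : (C c : ℂ[X]) ≠ 0 := right_ne_zero_of_mul_eq_one hc'
  refine ⟨C (conj c) * g, C c * p, C c * q, mul_ne_zero (left_ne_zero_of_mul_eq_one hc') hg,
    mul_ne_zero hc0 hp, mul_ne_zero hc0 hq, ?_, ?_, ?_, ?_⟩
  · rw [hC, hs, C_pow]; linear_combination (C c * p) * hc'
  · rw [hC, hs', C_pow]; linear_combination (C c * q) * hc'
  · linear_combination (-(g * p)) * hc'
  · linear_combination (-(g * q)) * hc'

theorem Dep.mul_left {a b : ℂ[X]} (g : ℂ[X]) (h : Dep a b) : Dep (g * a) (g * b) :=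
  h.map (LinearMap.mulLeft ℝ g)

theorem eval_ofFn {N : ℕ} (c : Fin N → ℂ) (w : ℂ) :
    (ofFn N c).eval w = ∑ n, c n * w ^ (n : ℕ) := by
  rw [ofFn_eq_sum_monomial, eval_finsetSum]
  simp only [eval_monomial]

theorem exists_ofFn {N : ℕ} {p : ℂ[X]} (h : p.natDegree ≤ N) :
    ∃ c : Fin (N + 1) → ℂ, p = ofFn (N + 1) c :=
  ⟨_, (ofFn_comp_toFn_eq_id_of_natDegree_lt (Nat.lt_succ_of_le h)).symm⟩

theorem natDegree_ofFn {N : ℕ} (c : Fin (N + 1) → ℂ) : (ofFn (N + 1) c).natDegree ≤ N :=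
  Nat.le_of_lt_succ (ofFn_natDegree_lt (by omega) c)

theorem ofFn_comb {N : ℕ} (a b : ℝ) (c d : Fin N → ℂ) :
    ofFn N (a • c + b • d) = a • ofFn N c + b • ofFn N d := by
  have h : ∀ (r : ℝ) (e : Fin N → ℂ), r • e = (r : ℂ) • e := fun r e => by
    ext i; simp
  rw [h, h, map_add, map_smul, map_smul, real_smul_poly, real_smul_poly, smul_eq_C_mul,
    smul_eq_C_mul]

theorem dep_ofFn {N : ℕ} {c d : Fin N → ℂ} : Dep (ofFn N c) (ofFn N d) ↔ Dep c d := by
  constructor
  · rintro ⟨a, b, hab, h⟩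
    exact ⟨a, b, hab, injective_ofFn N (by rw [ofFn_comb, h, map_zero])⟩
  · rintro ⟨a, b, hab, h⟩
    exact ⟨a, b, hab, by rw [← ofFn_comb, h, map_zero]⟩

/-- openness for weighted sums of the basic form, with one optional side constraint -/
theorem eventually_sum {T J ι : Type*} [TopologicalSpace T] [Fintype ι] {e k : ℕ}
    (W : T → J → ι → ℝ) (Γ : ι → (Fin e → ℂ) → ℂ) (Φ : T → ι → (Fin k → ℂ) → ℂ) (l : Fin k)
    (c : Prop) (t₀ : T) (hW : ∀ j s, ContinuousAt (fun t => W t j s) t₀)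
    (hΓ : ∀ s, Continuous (Γ s)) (hΓ' : ∀ s (r : ℝ) g, Γ s (r • g) = r * Γ s g)
    (hΦ : ∀ s x, ContinuousAt (fun z : T × (Fin k → ℂ) => Φ z.1 s z.2) (t₀, x))
    (hΦ' : ∀ t s (a b : ℝ) p q, Φ t s (a • p + b • q) = a * Φ t s p + b * Φ t s q)
    (h0 : ∀ g ≠ 0, ∀ p q, (c → im2 (p l) (q l) = 0) →
      (∀ j, ∑ s, W t₀ j s * normSq (Γ s g) * im2 (Φ t₀ s p) (Φ t₀ s q) = 0) → Dep p q) :
    ∀ᶠ t in 𝓝 t₀, ∀ g ≠ 0, ∀ p q, (c → im2 (p l) (q l) = 0) →
      (∀ j, ∑ s, W t j s * normSq (Γ s g) * im2 (Φ t s p) (Φ t s q) = 0) → Dep p q := by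
  have := eventually_form (J := PLift c ⊕ J) (V := ℝ)
    (fun t j g p q => Sum.elim (fun _ => im2 (p l) (q l))
      (fun j => ∑ s, W t j s * normSq (Γ s g) * im2 (Φ t s p) (Φ t s q)) j) t₀ ?_ ?_ ?_
  · refine this.mono fun t ht g hg p q h1 h2 => ht g hg p q ?_
    rintro (j | j)
    · exact h1 j.down
    · exact h2 j
  · rintro (j | j) ⟨g, p, q⟩
    · simp only [Sum.elim_inl]
      fun_prop
    · simp only [Sum.elim_inr]
      refine tendsto_finsetSum _ fun s _ => ?_
      refine ContinuousAt.mul (ContinuousAt.mul ?_ ?_) (ContinuousAt.im2 ?_ ?_)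
      · exact ContinuousAt.comp (f := Prod.fst) (x := (t₀, g, p, q)) (hW j s) continuousAt_fst
      · exact (continuous_normSq.comp ((hΓ s).comp (by fun_prop))).continuousAt
      · exact ContinuousAt.comp (f := fun z : T × ((Fin e → ℂ) × (Fin k → ℂ) × (Fin k → ℂ)) =>
          (z.1, z.2.2.1)) (x := (t₀, g, p, q)) (hΦ s p) (by fun_prop)
      · exact ContinuousAt.comp (f := fun z : T × ((Fin e → ℂ) × (Fin k → ℂ) × (Fin k → ℂ)) =>
          (z.1, z.2.2.2)) (x := (t₀, g, p, q)) (hΦ s q) (by fun_prop)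
  · rintro t g p q r a b s h (j | j)
    · have h1 := h (Sum.inl j)
      simp only [Sum.elim_inl, Pi.smul_apply, Pi.sub_apply, real_smul] at h1 ⊢
      rw [im2_smul, h1, mul_zero]
    · have h1 := h (Sum.inr j)
      simp only [Sum.elim_inr] at h1 ⊢
      rw [← mul_zero (r * r * a * b), ← h1, Finset.mul_sum]
      refine Finset.sum_congr rfl fun i _ => ?_
      have e1 : Φ t i (a • p) = a * Φ t i p := by simpa using hΦ' t i a 0 p q
      have e2 : Φ t i (b • (q - s • p)) = b * (Φ t i q - s * Φ t i p) := by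
        have := hΦ' t i b (-(b * s)) q p
        rw [smul_sub, smul_smul, sub_eq_add_neg, ← neg_smul, this]
        push_cast
        ring
      rw [e1, e2, im2_smul, hΓ', normSq_mul, normSq_ofReal]
      ring
  · intro g hg p q h
    exact h0 g hg p q (fun hc => h (Sum.inl ⟨hc⟩)) fun j => h (Sum.inr j)

end Pool.Agent.P.MP_32bf8a_an.PR
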