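import Pool.Agent.P.MP_32bf8a_an.PR3.Top

/-!
The frame: the standard basis together with perturbed rows of a real Cauchy matrix.
-/

open Filter Topology Complex Polynomial Lagrange
open scoped ComplexConjugate

namespace Pool.Agent.P.MP_32bf8a_an.PR

theorem im2_polar {x y : ℂ} (h : ‖x‖ = ‖y‖) : im2 (x + y) (I * (x - y)) = 0 := by
  have e1 : normSq x = normSq y := by rw [normSq_eq_norm_sq, normSq_eq_norm_sq, h]
  simp only [im2, normSq_apply, mul_im, mul_re, add_re, add_im, sub_re, sub_im, conj_re, conj_im,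
    I_re, I_im] at e1 ⊢
  linear_combination -e1

theorem frame_of_rows {n k : ℕ} (hn : k ≤ n) {J : Type*} {c : J → Fin n → ℂ}
    (hc : ∀ S : Finset (Fin n), S.card = k → ∀ p q : Fin n → ℂ,
      (∀ i ∉ S, p i = 0) → (∀ i ∉ S, q i = 0) → (∀ i, im2 (p i) (q i) = 0) →
      (∀ j, im2 (c j ⬝ᵥ p) (c j ⬝ᵥ q) = 0) → Dep p q) :
    ∃ f : Fin n ⊕ J → EuclideanSpace ℂ (Fin n), Submodule.span ℂ (Set.range f) = ⊤ ∧
      ∀ x y : EuclideanSpace ℂ (Fin n), (Finset.univ.filter fun i => x i ≠ 0).card ≤ k →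
        (∀ j, ‖inner ℂ (f j) x‖ = ‖inner ℂ (f j) y‖) → ∃ γ : ℂ, ‖γ‖ = 1 ∧ x = γ • y := by
  refine ⟨Sum.elim (fun i => EuclideanSpace.single i 1)
    (fun j => WithLp.toLp 2 fun i => conj (c j i)), ?_, ?_⟩
  · rw [eq_top_iff, ← (EuclideanSpace.basisFun (Fin n) ℂ).toBasis.span_eq]
    refine Submodule.span_mono ?_
    rintro _ ⟨i, rfl⟩
    exact ⟨Sum.inl i, by simp⟩
  intro x y hx hxy
  have h1 : ∀ i, ‖x i‖ = ‖y i‖ := fun i => by
    simpa [EuclideanSpace.inner_single_left] using hxy (Sum.inl i)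
  have h2 : ∀ j, ‖c j ⬝ᵥ x.ofLp‖ = ‖c j ⬝ᵥ y.ofLp‖ := fun j => by
    have := hxy (Sum.inr j)
    simpa [PiLp.inner_apply, mul_comm, dotProduct] using this
  obtain ⟨S, hS, -, hSc⟩ := Finset.exists_subsuperset_card_eq
    (Finset.subset_univ (Finset.univ.filter fun i => x i ≠ 0)) hx (by simpa using hn)
  have hx0 : ∀ i, i ∉ S → x i = 0 := by
    intro i hi
    by_contra h
    exact hi (hS (by simpa using h))
  have hy0 : ∀ i, i ∉ S → y i = 0 := by
    intro i hi
    rw [← norm_eq_zero, ← h1, hx0 i hi, norm_zero]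
  obtain ⟨a, b, hab, hd⟩ := hc S hSc (x.ofLp + y.ofLp) (I • (x.ofLp - y.ofLp))
    (fun i hi => by simp [hx0 i hi, hy0 i hi]) (fun i hi => by simp [hx0 i hi, hy0 i hi])
    (fun i => im2_polar (h1 i)) fun j => by
      rw [dotProduct_add, dotProduct_smul, dotProduct_sub, smul_eq_mul, im2_polar (h2 j)]
  have h0 : (a : ℂ) + b * I ≠ 0 := by
    intro h3
    have e1 := congrArg re h3
    have e2 := congrArg im h3
    simp at e1 e2
    tauto
  refine ⟨-conj ((a : ℂ) + b * I) / (a + b * I), ?_, ?_⟩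
  · rw [norm_div, norm_neg, RCLike.norm_conj, div_self (norm_ne_zero_iff.2 h0)]
  · ext i
    have e1 := congrFun hd i
    simp only [Pi.add_apply, Pi.smul_apply, Pi.sub_apply, real_smul, smul_eq_mul,
      Pi.zero_apply] at e1
    simp only [PiLp.smul_apply, smul_eq_mul, map_add, map_mul, conj_ofReal, conj_I]
    field_simp
    linear_combination e1

theorem exists_rows (n D : ℕ) : ∃ c : Fin (D + (2 * D - (Nat.digits 2 D).sum)) → Fin n → ℂ,
    ∀ S : Finset (Fin n), S.card = D + 1 → ∀ p q : Fin n → ℂ,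
      (∀ i ∉ S, p i = 0) → (∀ i ∉ S, q i = 0) → (∀ i, im2 (p i) (q i) = 0) →
      (∀ j, im2 (c j ⬝ᵥ p) (c j ⬝ᵥ q) = 0) → Dep p q := by
  refine top (v := fun i => ((i : ℕ) : ℂ)) (t := fun j => ((n + j : ℕ) : ℂ))
    (Nat.cast_injective.comp Fin.val_injective) (fun j l h => ?_) (fun i => map_natCast _ _)
    (fun j => map_natCast _ _) (fun j i h => ?_) (exists_sp D D fun S => ?_)
  · exact Fin.ext (Nat.add_left_cancel (Nat.cast_injective h))
  · have := Nat.cast_injective h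
    omega
  · have h : conj ((nodal S fun i : Fin n => ((i : ℕ) : ℂ)).eval I) ≠ 0 :=
      (_root_.map_ne_zero _).2 (eval_nodal_not_at_node fun i _ e => by simpa using congrArg im e)
    exact ⟨(continuous_conj.comp (Polynomial.continuous _)).continuousAt.inv₀ h, inv_ne_zero h⟩

end Pool.Agent.P.MP_32bf8a_an.PR
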