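import Pool.Agent.P.MP_32bf8a_an.PR3.Cluster

/-!
Complex pairs are first forced to have real ratio on the real line; the spare equations are then
moved to non-real points.
-/

open Filter Topology Complex Polynomial
open scoped ComplexConjugate

namespace Pool.Agent.P.MP_32bf8a_an.PR

theorem cj_mul (p q : ℂ[X]) : cj (p * q) = cj p * cj q := Polynomial.map_mul _

theorem cj_add (p q : ℂ[X]) : cj (p + q) = cj p + cj q := Polynomial.map_add _

theorem cj_sub (p q : ℂ[X]) : cj (p - q) = cj p - cj q := Polynomial.map_sub _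

theorem cj_C (a : ℂ) : cj (C a) = C (conj a) := map_C _

/-- the real polynomial whose values on the real line are the basic form of the values -/
noncomputable def wr (A B : ℂ[X]) : ℂ[X] := C (-I / 2) * (A * cj B - cj A * B)

theorem cj_wr (A B : ℂ[X]) : cj (wr A B) = wr A B := by
  have : conj (-I / 2) = -(-I / 2) := by
    rw [map_div₀, map_neg, conj_I, map_ofNat, neg_div]
  simp only [wr, cj_mul, cj_sub, cj_cj, cj_C, this, C_neg]
  ring

theorem eval_wr (A B : ℂ[X]) {x : ℂ} (hx : conj x = x) :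
    (wr A B).eval x = im2 (A.eval x) (B.eval x) := by
  simp only [wr, eval_mul, eval_sub, eval_C, eval_cj_real _ hx, im2_eq]
  linear_combination (-(im2 (A.eval x) (B.eval x) : ℂ)) * I_sq

theorem wr_eq_zero {A B : ℂ[X]} (h : wr A B = 0) : A * cj B = cj A * B := by
  rcases mul_eq_zero.1 h with h | h
  · simp at h
  · exact sub_eq_zero.1 h

theorem natDegree_wr {A B : ℂ[X]} {d : ℕ} (hA : A.natDegree ≤ d) (hB : B.natDegree ≤ d) :
    (wr A B).natDegree ≤ d + d :=
  (natDegree_C_mul_le _ _).trans ((natDegree_sub_le _ _).trans (max_le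
    (natDegree_mul_le.trans (add_le_add hA ((natDegree_cj B).trans_le hB)))
    (natDegree_mul_le.trans (add_le_add ((natDegree_cj A).trans_le hA) hB))))

theorem degree_wr {A B : ℂ[X]} {D : ℕ} (hA : A.natDegree ≤ D / 2) (hB : B.natDegree ≤ D / 2)
    (h : Even D → im2 (A.coeff (D / 2)) (B.coeff (D / 2)) = 0) : (wr A B).degree < D := by
  have h1 := natDegree_wr hA hB
  rw [degree_lt_iff_coeff_zero]
  intro m hm
  by_cases h2 : D / 2 + D / 2 < m
  · exact coeff_eq_zero_of_natDegree_lt (h1.trans_lt h2)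
  · obtain rfl : m = D / 2 + D / 2 := by omega
    rw [wr, coeff_C_mul, coeff_sub,
      coeff_mul_add_eq_of_natDegree_le hA ((natDegree_cj B).trans_le hB),
      coeff_mul_add_eq_of_natDegree_le ((natDegree_cj A).trans_le hA) hB, coeff_map, coeff_map,
      im2_eq, h ⟨D / 2, by omega⟩]
    simp

theorem bezout {χ F : ℂ[X]} {K n : ℕ} (hm : χ.Monic) (hn : χ.natDegree = n) (hK : n ≤ K)
    (hc : IsCoprime (cj χ) χ) (hr : cj F = F) (hF : F.degree < (K + n : ℕ)) :
    ∃ H : ℂ[X], H.degree < K ∧ cj χ * H + χ * cj H = 2 * F := by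
  obtain ⟨U, V, huv⟩ := hc
  have hχ : χ.degree = n := by rw [degree_eq_natDegree hm.ne_zero, hn]
  have h0 := modByMonic_add_div (U * F) χ
  have h1 : ((U * F) %ₘ χ).degree < n := hχ ▸ degree_modByMonic_lt _ hm
  generalize (U * F) %ₘ χ = H₁ at *
  obtain ⟨W, e1⟩ : ∃ W, χ * W = F - cj χ * H₁ :=
    ⟨V * F + cj χ * ((U * F) /ₘ χ), by linear_combination F * huv + cj χ * h0⟩
  have h2 : (cj χ * H₁).degree < (K + n : ℕ) := by
    rw [degree_mul, degree_cj, hχ]
    refine (WithBot.add_lt_add_left (WithBot.coe_ne_bot) h1).trans_le ?_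
    rw [Nat.cast_add]
    exact add_le_add_left (Nat.cast_le.2 hK) _
  have h3 : W.degree < K := by
    have := (degree_sub_le F (cj χ * H₁)).trans_lt (max_lt hF h2)
    rw [← e1, degree_mul, hχ, Nat.cast_add, add_comm] at this
    exact (WithBot.add_lt_add_iff_right WithBot.coe_ne_bot).1 this
  refine ⟨H₁ + cj W, (degree_add_le _ _).trans_lt
    (max_lt (h1.trans_le (Nat.cast_le.2 hK)) ((degree_cj W).trans_lt h3)), ?_⟩
  have e2 := congrArg cj e1
  rw [cj_mul, cj_sub, cj_mul, cj_cj, hr] at e2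
  rw [cj_add, cj_cj]
  linear_combination e1 + e2

theorem cover {χ F : ℂ[X]} {K n : ℕ} (hm : χ.Monic) (hn : χ.natDegree = n) (hK : n ≤ K)
    (hc : IsCoprime (cj χ) χ) (hr : cj F = F) (hF : F.degree < (K + n + 1 : ℕ)) {φ : ℂ}
    (hφ : φ.re ≠ 0) : ∃ H : ℂ[X], H.natDegree ≤ K ∧
      H.coeff K = (((F.coeff (K + n)).re / φ.re : ℝ) : ℂ) * φ ∧
      ∀ x : ℂ, conj x = x → (conj (χ.eval x) * H.eval x).re = (F.eval x).re := by
  set t : ℝ := (F.coeff (K + n)).re / φ.re with ht
  set G : ℂ[X] := C ((t : ℂ) * φ / 2) * X ^ K with hG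
  have dG : G.natDegree ≤ K := (natDegree_C_mul_le _ _).trans (natDegree_X_pow_le _)
  have cG : G.coeff K = t * φ / 2 := by rw [hG, coeff_C_mul, coeff_X_pow_self, mul_one]
  clear_value G
  have c1 : χ.coeff n = 1 := hn ▸ hm.coeff_natDegree
  have d1 : (cj χ).natDegree ≤ n := (natDegree_cj χ).trans_le hn.le
  have d2 : (cj G).natDegree ≤ K := (natDegree_cj G).trans_le dG
  obtain ⟨H, h1, h2⟩ := bezout (F := F - (G * cj χ + cj G * χ)) hm hn hK hc (by
    rw [cj_sub, cj_add, cj_mul, cj_mul, cj_cj, cj_cj, hr, add_comm]) (by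
    rw [degree_lt_iff_coeff_zero] at hF ⊢
    intro m hm
    rw [coeff_sub, coeff_add]
    rcases hm.eq_or_lt with rfl | h
    · rw [coeff_mul_add_eq_of_natDegree_le dG d1, coeff_mul_add_eq_of_natDegree_le d2 hn.le,
        coeff_map, coeff_map, c1, cG, map_one, mul_one, mul_one, add_conj, ← coeff_real hr,
        ← ofReal_sub, ofReal_eq_zero, div_ofNat_re, re_ofReal_mul, ht]
      field_simp
      ring
    · rw [hF m h, coeff_eq_zero_of_natDegree_lt
        ((natDegree_mul_le.trans (add_le_add dG d1)).trans_lt h), coeff_eq_zero_of_natDegree_lt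
        ((natDegree_mul_le.trans (add_le_add d2 hn.le)).trans_lt h)]
      simp)
  refine ⟨H + (G + G), (natDegree_add_le _ _).trans (max_le (natDegree_le_of_degree_le h1.le)
    ((natDegree_add_le _ _).trans (max_le dG dG))), ?_, fun x hx => ?_⟩
  · rw [coeff_add, coeff_add, coeff_eq_zero_of_degree_lt h1, cG]
    ring
  · have h3 : cj χ * (H + (G + G)) + χ * cj (H + (G + G)) = 2 * F := by
      rw [cj_add, cj_add]
      linear_combination h2
    generalize H + (G + G) = H' at h3 ⊢
    have h4 := congrArg (fun p : ℂ[X] => (p.eval x).re) h3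
    simp only [eval_add, eval_mul, eval_cj_real _ hx, eval_ofNat, add_re, mul_re,
      conj_re, conj_im, re_ofNat, im_ofNat] at h4 ⊢
    linarith

theorem cp_of_sp {D M E : ℕ} (hM : M ≤ D) {ρ : Type} [Finite ρ] {μ : ρ → ℂ} (hμ : ∀ r, μ r ≠ 0)
    (h : SP (D / 2) M (E + D / 2) fun (_ : Unit) _ => 1) : CP D (D + M) E μ := by
  classical
  obtain ⟨ι, _, ζ, κ, hζ, h⟩ := h
  have := Fintype.ofFinite ρ
  obtain ⟨u, hu⟩ := Infinite.exists_notMem_finset
    (Finset.univ.image fun r => (μ r).re / (μ r).im)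
  set w : ℂ := 1 + u * I with hw
  have hw0 : w ≠ 0 := fun e => by simpa [hw] using congrArg re e
  have hwμ : ∀ r, (w * μ r).re ≠ 0 := fun r e => by
    simp only [hw, mul_re, add_re, one_re, ofReal_re, I_re, ofReal_im, I_im, add_im, one_im,
      mul_im] at e
    by_cases hb : (μ r).im = 0
    · exact hμ r (Complex.ext (by simpa [hb] using e) hb)
    · exact hu (Finset.mem_image.2 ⟨r, Finset.mem_univ _, by field_simp; linarith⟩)
  obtain ⟨y, hy⟩ := Infinite.exists_notMem_finset
    (insert 0 (Finset.univ.image fun s => (ζ s).im))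
  rw [Finset.mem_insert, not_or] at hy
  obtain ⟨n, hn⟩ : ∃ n, (D + M) / 2 = M + n := ⟨(D + M) / 2 - M, by omega⟩
  set χ : ℂ[X] := (X - C ((y : ℂ) * I)) ^ n with hχ
  have hm : χ.Monic := (monic_X_sub_C _).pow n
  have hd : χ.natDegree = n := by
    rw [hχ, (monic_X_sub_C _).natDegree_pow, natDegree_X_sub_C, mul_one]
  have hc : IsCoprime (cj χ) χ := by
    rw [hχ, cj, Polynomial.map_pow, Polynomial.map_sub, map_X, map_C]
    refine (isCoprime_X_sub_C_of_isUnit_sub (IsUnit.mk0 _ fun e => hy.1 ?_)).pow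
    have := congrArg im e
    simp at this
    linarith
  have hχζ : ∀ s, χ.eval (ζ s) ≠ 0 := fun s => by
    rw [hχ, eval_pow, eval_sub, eval_X, eval_C]
    refine pow_ne_zero _ (sub_ne_zero.2 fun e => hy.2 ?_)
    exact Finset.mem_image.2 ⟨s, Finset.mem_univ _, by simp [e]⟩
  set x : Fin (E + D + 1) ⊕ ι → ℂ := Sum.elim (fun t => ((t : ℕ) : ℂ)) ζ with hx
  set k : ℝ → Fin (E + D + 1) ⊕ ι → ℂ := fun ω => Sum.elim
    (fun t => w * conj (χ.eval ((t : ℕ) : ℂ))) fun s => ω * (w * κ s / (I * χ.eval (ζ s))) with hk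
  have h1 := fun r => eventually_sum
    (J := {z : ℂ[X] × ℝ // z.1.natDegree ≤ (D + M) / 2 ∧ z.1.coeff ((D + M) / 2) = z.2 * μ r ∧
      (Even (D + M) → z.2 = 0)} ⊕ {p : ℂ[X] // cj p = p ∧ p.degree < M})
    (fun (ω : ℝ) j s => Sum.elim (fun z => (k ω s * z.1.1.eval (x s)).re)
      (fun p => Sum.elim (fun _ => 0) (fun s => (κ s * p.1.eval (ζ s)).re) s) j)
    (fun s (g : Fin (E + 1) → ℂ) => (ofFn _ g).eval (x s))
    (fun _ s (c : Fin (D / 2 + 1) → ℂ) => (ofFn _ c).eval (x s)) (Fin.last _) (Even D) 0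
    (by
      rintro (j | j) (s | s) <;> simp only [hk, Sum.elim_inl, Sum.elim_inr] <;> fun_prop)
    (fun s => continuous_ofFn_eval _) (fun s => ofFn_eval_smul _)
    (fun s c => ((continuous_ofFn_eval _).comp continuous_snd).continuousAt)
    (fun _ s a b p q => ofFn_eval_comb _ a b p q) (by
      intro G hG p q h2 h3
      rw [← dep_ofFn]
      rw [← coeff_ofFn_last p, ← coeff_ofFn_last q] at h2
      have dA := natDegree_ofFn p
      have dB := natDegree_ofFn q
      have dg := natDegree_ofFn G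
      have hg := ofFn_ne_zero.2 hG
      generalize ofFn _ p = A at *
      generalize ofFn _ q = B at *
      generalize ofFn _ G = g at *
      have dF := degree_wr dA dB h2
      obtain ⟨H, e1, e2, e3⟩ := cover (K := (D + M) / 2) hm hd (by omega) hc (cj_wr A B)
        (dF.trans_le (Nat.cast_le.2 (by omega))) (hwμ r)
      have h4 := h3 (Sum.inl ⟨(C w⁻¹ * H, _), (natDegree_C_mul_le _ _).trans e1, by
        simp only [coeff_C_mul, e2]
        rw [mul_left_comm, inv_mul_cancel_left₀ hw0], fun he => by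
        obtain ⟨l, hl⟩ := he
        simp only
        rw [coeff_eq_zero_of_degree_lt (dF.trans_le (Nat.cast_le.2 (by omega))), zero_re,
          zero_div]⟩)
      simp only [Fintype.sum_sum_type, hk, hx, Sum.elim_inl, Sum.elim_inr, ofReal_zero, zero_mul,
        zero_re, Finset.sum_const_zero, add_zero, eval_mul, eval_C] at h4
      have h5 : ∀ t : Fin (E + D + 1), (w * conj (χ.eval ((t : ℕ) : ℂ)) *
          (w⁻¹ * H.eval ((t : ℕ) : ℂ))).re = im2 (A.eval ((t : ℕ) : ℂ)) (B.eval ((t : ℕ) : ℂ)) := by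
        intro t
        rw [mul_mul_mul_comm, mul_inv_cancel₀ hw0, one_mul, e3 _ (map_natCast _ _),
          eval_wr _ _ (map_natCast _ _), ofReal_re]
      simp only [h5] at h4
      rw [Finset.sum_eq_zero_iff_of_nonneg fun t _ => by
        rw [mul_right_comm]; exact mul_nonneg (mul_self_nonneg _) (normSq_nonneg _)] at h4
      have h6 : wr A B * g = 0 := eq_zero_of_natDegree_lt_card_of_eval_eq_zero _
        (f := fun t : Fin (E + D + 1) => ((t : ℕ) : ℂ))
        (Nat.cast_injective.comp Fin.val_injective) (fun t => by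
          have h7 := h4 t (Finset.mem_univ _)
          rw [eval_mul, eval_wr _ _ (map_natCast _ _), mul_eq_zero, ofReal_eq_zero]
          simp only [mul_eq_zero, normSq_eq_zero] at h7
          tauto) (by
          have := natDegree_le_of_degree_le dF.le
          rw [Fintype.card_fin]
          exact natDegree_mul_le.trans_lt (by omega))
      by_contra hdep
      obtain ⟨g', a, b, hg', ha, hb, ra, rb, rfl, rfl⟩ :=
        line_factor (wr_eq_zero ((mul_eq_zero.1 h6).resolve_right hg)) hdep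
      rw [natDegree_mul hg' ha] at dA
      rw [natDegree_mul hg' hb] at dB
      refine hdep (Dep.mul_left g' (h () (g * g') a b (mul_ne_zero hg hg')
        (natDegree_mul_le.trans (by omega)) ra rb (by omega) (by omega) fun p hp dp => ?_))
      have h7 := h3 (Sum.inr ⟨p, hp, dp⟩)
      simp only [Fintype.sum_sum_type, hx, Sum.elim_inl, Sum.elim_inr, zero_mul,
        Finset.sum_const_zero, zero_add, eval_mul, im2_mul] at h7
      simpa only [mul_one, eval_mul, normSq_mul, mul_assoc] using h7)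
  obtain ⟨ω, h3, hω⟩ := (((eventually_all.2 h1).filter_mono
    (nhdsWithin_le_nhds (s := {0}ᶜ))).and self_mem_nhdsWithin).exists
  have hω : ω ≠ 0 := hω
  refine ⟨_, inferInstance, x, k ω, fun r g A B hg dg dA dB h2 he => ?_⟩
  obtain ⟨G, rfl⟩ := exists_ofFn dg
  obtain ⟨p, rfl⟩ := exists_ofFn dA
  obtain ⟨q, rfl⟩ := exists_ofFn dB
  rw [coeff_ofFn_last, coeff_ofFn_last] at h2
  refine dep_ofFn.2 (h3 r G (ofFn_ne_zero.1 hg) p q h2 ?_)
  rintro (z | z)
  · exact he _ _ z.2.1 z.2.2.1 z.2.2.2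
  · have d1 : (C (w⁻¹ * I) * (χ * z.1)).degree < ((D + M) / 2 : ℕ) := by
      rw [degree_C_mul (mul_ne_zero (inv_ne_zero hw0) I_ne_zero), degree_mul,
        degree_eq_natDegree hm.ne_zero, hd, hn, Nat.cast_add, add_comm]
      exact WithBot.add_lt_add_right WithBot.coe_ne_bot z.2.2
    have h4 := he _ 0 (natDegree_le_of_degree_le d1.le)
      (by rw [coeff_eq_zero_of_degree_lt d1, ofReal_zero, zero_mul]) fun _ => rfl
    apply mul_left_cancel₀ hω
    rw [mul_zero, Finset.mul_sum]
    refine Eq.trans (Finset.sum_congr rfl ?_) h4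
    rintro (t | s) -
    · simp only [hk, hx, Sum.elim_inl, Sum.elim_inr, eval_mul, eval_C, zero_mul, mul_zero]
      have e1 := eval_cj_real z.1 (map_natCast (starRingEnd ℂ) (t : ℕ))
      rw [z.2.1] at e1
      have e2 : w * conj (χ.eval ((t : ℕ) : ℂ)) * (w⁻¹ * I * (χ.eval ((t : ℕ) : ℂ) *
          z.1.eval ((t : ℕ) : ℂ))) = (normSq (χ.eval ((t : ℕ) : ℂ)) : ℂ) *
          (I * z.1.eval ((t : ℕ) : ℂ)) := by
        rw [normSq_eq_conj_mul_self]
        field_simp
      rw [e2, re_ofReal_mul, I_mul_re, conj_eq_iff_im.1 e1.symm]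
      simp
    · simp only [hk, hx, Sum.elim_inr, eval_mul, eval_C]
      have e2 : ω * (w * κ s / (I * χ.eval (ζ s))) * (w⁻¹ * I * (χ.eval (ζ s) * z.1.eval (ζ s))) =
          ω * (κ s * z.1.eval (ζ s)) := by
        have := hχζ s
        field_simp
      rw [e2, re_ofReal_mul]
      ring

end Pool.Agent.P.MP_32bf8a_an.PR
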