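import Pool.Agent.P.MP_32bf8a_an.PR3.Line

/-!
The recursion, and first order perturbation of redundant real Cauchy rows.
-/

open Filter Topology Complex Polynomial Lagrange
open scoped ComplexConjugate

namespace Pool.Agent.P.MP_32bf8a_an.PR

theorem sp_zero {E : ℕ} {ρ : Type} (m : ρ → ℂ → ℂ) : SP 0 0 E m := by
  refine ⟨Empty, inferInstance, Empty.elim, Empty.elim, fun s => s.elim,
    fun r g a b _ _ ra rb da db _ => ?_⟩
  rw [eq_C_of_natDegree_le_zero da, eq_C_of_natDegree_le_zero db, ← coeff_real ra, ← coeff_real rb]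
  by_cases h : (a.coeff 0).re = 0
  · exact ⟨1, 0, by simp, by simp [h]⟩
  · refine ⟨-(b.coeff 0).re, (a.coeff 0).re, Or.inr h, ?_⟩
    rw [real_smul_poly, real_smul_poly, ofReal_neg, C_neg]
    ring

theorem exists_sp (D : ℕ) : ∀ (E : ℕ) {ρ : Type} [Finite ρ] {m : ρ → ℂ → ℂ},
    (∀ r, ContinuousAt (m r) I ∧ m r I ≠ 0) → SP D (2 * D - (Nat.digits 2 D).sum) E m := by
  induction D using Nat.strong_induction_on with
  | _ D ih =>
    intro E ρ _ m hm
    rcases Nat.eq_zero_or_pos D with rfl | hD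
    · exact sp_zero m
    have h1 := Nat.digit_sum_le 2 (D / 2)
    have h2 : 2 * D - (Nat.digits 2 D).sum =
        D + (2 * (D / 2) - (Nat.digits 2 (D / 2)).sum) := by
      rw [Nat.digits_def' one_lt_two hD, List.sum_cons]
      omega
    rw [h2]
    exact sp_of_cp hm (cp_of_sp (by omega) (fun r => mul_ne_zero (hm r).2 (by simp))
      (ih (D / 2) (by omega) _ fun _ => ⟨continuousAt_const, one_ne_zero⟩))

theorem im2_add (e : ℝ) (x y x' y' : ℂ) : im2 (x + e * x') (y + e * y') =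
    im2 x y + e * (im2 x' y + im2 x y' + e * im2 x' y') := by
  simp only [im2, mul_im, mul_re, ofReal_re, ofReal_im, conj_re, conj_im, add_re, add_im]
  ring

theorem im2_pair (a b s : ℝ) (x y x' y' : ℂ) :
    im2 (a * x') (b * (y - s * x)) + im2 (a * x) (b * (y' - s * x')) =
      a * b * (im2 x' y + im2 x y') := by
  simp only [im2, mul_im, mul_re, ofReal_re, ofReal_im, conj_re, conj_im, sub_re, sub_im]
  ring

theorem eventually_top {n : ℕ} {J H : Type*} [Fintype J] (S : Finset (Fin n))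
    (A L : J → Fin n → ℂ) (W : H → J → ℝ)
    (h0 : ∀ p q : Fin n → ℂ, (∀ i ∉ S, p i = 0) → (∀ i ∉ S, q i = 0) →
      (∀ i, im2 (p i) (q i) = 0) → (∀ j, im2 (A j ⬝ᵥ p) (A j ⬝ᵥ q) = 0) →
      (∀ h, ∑ j, W h j * (im2 (L j ⬝ᵥ p) (A j ⬝ᵥ q) + im2 (A j ⬝ᵥ p) (L j ⬝ᵥ q)) = 0) → Dep p q)
    (h1 : ∀ p q : Fin n → ℂ, (∀ i ∉ S, p i = 0) → (∀ i ∉ S, q i = 0) →
      (∀ i, im2 (p i) (q i) = 0) → ∀ h, ∑ j, W h j * im2 (A j ⬝ᵥ p) (A j ⬝ᵥ q) = 0) :
    ∀ᶠ e : ℝ in 𝓝[≠] 0, ∀ p q : Fin n → ℂ, (∀ i ∉ S, p i = 0) → (∀ i ∉ S, q i = 0) →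
      (∀ i, im2 (p i) (q i) = 0) →
      (∀ j, im2 ((A j + e • L j) ⬝ᵥ p) ((A j + e • L j) ⬝ᵥ q) = 0) → Dep p q := by
  have := eventually_form (G := ℝ) (J := ({i // i ∉ S} ⊕ Fin n) ⊕ J ⊕ H) (V := ℝ)
    (fun (e : ℝ) j _ (p q : Fin n → ℂ) => Sum.elim
      (Sum.elim (fun i => ‖p i.1‖ + ‖q i.1‖) fun i => im2 (p i) (q i))
      (Sum.elim (fun j => im2 (A j ⬝ᵥ p + e * L j ⬝ᵥ p) (A j ⬝ᵥ q + e * L j ⬝ᵥ q))
        fun h => ∑ j, W h j * (im2 (L j ⬝ᵥ p) (A j ⬝ᵥ q) + im2 (A j ⬝ᵥ p) (L j ⬝ᵥ q) +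
          e * im2 (L j ⬝ᵥ p) (L j ⬝ᵥ q))) j) 0 ?_ ?_ ?_
  · refine ((this.filter_mono nhdsWithin_le_nhds).and self_mem_nhdsWithin).mono ?_
    rintro e ⟨h2, he⟩ p q hp hq h3 h4
    simp only [add_dotProduct, smul_dotProduct, real_smul] at h4
    refine h2 1 one_ne_zero p q ?_
    rintro ((i | i) | j | h)
    · simp [hp i i.2, hq i i.2]
    · exact h3 i
    · exact h4 j
    · apply mul_left_cancel₀ (show e ≠ 0 from he)
      have h5 := h1 p q hp hq h3 h
      simp only [Sum.elim_inr, im2_add] at h4 ⊢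
      rw [mul_zero, ← add_zero (e * _), ← h5, Finset.mul_sum, ← Finset.sum_add_distrib, h5]
      exact Finset.sum_eq_zero fun j _ => by linear_combination W h j * h4 j
  · rintro ((i | i) | j | h) x <;> simp only [Sum.elim_inl, Sum.elim_inr, dotProduct] <;> fun_prop
  · rintro e g p q r a b s h2 ((i | i) | j | h)
    · have h3 := h2 (Sum.inl (Sum.inl i))
      simp only [Sum.elim_inl] at h3 ⊢
      rw [add_eq_zero_iff_of_nonneg (norm_nonneg _) (norm_nonneg _), norm_eq_zero,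
        norm_eq_zero] at h3
      simp [h3.1, h3.2]
    · have h3 := h2 (Sum.inl (Sum.inr i))
      simp only [Sum.elim_inl, Sum.elim_inr, Pi.smul_apply, Pi.sub_apply, real_smul] at h3 ⊢
      rw [im2_smul, h3, mul_zero]
    · have h3 := h2 (Sum.inr (Sum.inl j))
      simp only [Sum.elim_inl, Sum.elim_inr, dotProduct_smul, dotProduct_sub, real_smul] at h3 ⊢
      rw [← mul_zero (a * b), ← h3, ← im2_smul a b s]
      congr 1 <;> ring
    · have h3 := h2 (Sum.inr (Sum.inr h))
      simp only [Sum.elim_inr, dotProduct_smul, dotProduct_sub, real_smul, im2_pair,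
        im2_smul] at h3 ⊢
      rw [← mul_zero (a * b), ← h3, Finset.mul_sum]
      exact Finset.sum_congr rfl fun j _ => by ring
  · intro g _ p q h2
    have h3 := fun i hi => (add_eq_zero_iff_of_nonneg (norm_nonneg _) (norm_nonneg _)).1
      (h2 (Sum.inl (Sum.inl ⟨i, hi⟩)))
    refine h0 p q (fun i hi => norm_eq_zero.1 (h3 i hi).1) (fun i hi => norm_eq_zero.1 (h3 i hi).2)
      (fun i => h2 (Sum.inl (Sum.inr i))) (fun j => ?_) fun h => ?_
    · simpa using h2 (Sum.inr (Sum.inl j))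
    · simpa using h2 (Sum.inr (Sum.inr h))

/-- `P` is the numerator of the sum of simple fractions with coefficients `p` -/
def Num {n : ℕ} (D : ℕ) (S : Finset (Fin n)) (v p : Fin n → ℂ) (P : ℂ[X]) : Prop :=
  P.natDegree ≤ D ∧ (∀ i ∈ S, P.eval (v i) = (nodalWeight S v i)⁻¹ * p i) ∧
    ∀ z, (∀ i, z ≠ v i) → P.eval z = (nodal S v).eval z * (fun i => (z - v i)⁻¹) ⬝ᵥ p

theorem exists_num {n D : ℕ} {S : Finset (Fin n)} (hS : S.card = D + 1) {v p : Fin n → ℂ}
    (hv : Function.Injective v) (hp : ∀ i ∉ S, p i = 0) : ∃ P, Num D S v p P := by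
  refine ⟨interpolate S v fun i => (nodalWeight S v i)⁻¹ * p i, ?_,
    fun i hi => eval_interpolate_at_node _ hv.injOn hi, fun z hz => ?_⟩
  · have := degree_interpolate_lt (s := S) (fun i => (nodalWeight S v i)⁻¹ * p i) hv.injOn
    rw [hS] at this
    exact natDegree_le_iff_degree_le.2 (Order.le_of_lt_succ this)
  · rw [eval_interpolate_not_at_node _ fun i _ => hz i, dotProduct,
      ← Finset.sum_subset (Finset.subset_univ S) fun i _ hi => by rw [hp i hi, mul_zero]]
    congr 1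
    refine Finset.sum_congr rfl fun i hi => ?_
    have := nodalWeight_ne_zero hv.injOn hi
    field_simp

theorem conj_nodalWeight {ι : Type*} [DecidableEq ι] {v : ι → ℂ} (rv : ∀ i, conj (v i) = v i)
    (S : Finset ι) (i : ι) : conj (nodalWeight S v i) = nodalWeight S v i := by
  simp only [nodalWeight, map_prod, map_inv₀, map_sub, rv]

theorem conj_nodal {ι : Type*} {v : ι → ℂ} (rv : ∀ i, conj (v i) = v i) (S : Finset ι) (z : ℂ) :
    conj ((nodal S v).eval z) = (nodal S v).eval (conj z) := by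
  simp only [eval_nodal, map_prod, map_sub, rv]

theorem Num.factor {n D : ℕ} {S : Finset (Fin n)} (hS : S.card = D + 1) {v p q : Fin n → ℂ}
    (hv : Function.Injective v) (rv : ∀ i, conj (v i) = v i) {P Q : ℂ[X]} (hP : Num D S v p P)
    (hQ : Num D S v q Q) (h : ∀ i, im2 (p i) (q i) = 0) :
    ∃ Ψ : ℂ[X], wr P Q = nodal S v * Ψ ∧ Ψ.degree < D ∧ ∀ z, conj z = z → (∀ i, z ≠ v i) →
      Ψ.eval z = (nodal S v).eval z *
        im2 ((fun i => (z - v i)⁻¹) ⬝ᵥ p) ((fun i => (z - v i)⁻¹) ⬝ᵥ q) := by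
  obtain ⟨Ψ, h1⟩ : nodal S v ∣ wr P Q := by
    refine Finset.prod_dvd_of_coprime (fun i _ j _ hij => pairwise_coprime_X_sub_C hv hij)
      fun i hi => dvd_iff_isRoot.2 ?_
    rw [IsRoot, eval_wr _ _ (rv i), hP.2.1 i hi, hQ.2.1 i hi, im2_mul, h, mul_zero, ofReal_zero]
  refine ⟨Ψ, h1, ?_, fun z rz hz => ?_⟩
  · by_cases h0 : Ψ = 0
    · rw [h0, degree_zero]
      exact WithBot.bot_lt_coe _
    have h2 := natDegree_wr hP.1 hQ.1
    rw [h1, natDegree_mul nodal_ne_zero h0, natDegree_nodal, hS] at h2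
    exact degree_le_natDegree.trans_lt (Nat.cast_lt.2 (by omega))
  · have h2 := eval_wr P Q rz
    rw [h1, eval_mul, hP.2.2 z hz, hQ.2.2 z hz, im2_mul, ofReal_mul, normSq_eq_conj_mul_self,
      conj_nodal rv, rz, mul_assoc] at h2
    exact mul_left_cancel₀ (eval_nodal_not_at_node fun i _ => hz i) h2

theorem sum_nodalWeight_eval {N : ℕ} {t : Fin N → ℂ} (ht : Function.Injective t) {h Ψ : ℂ[X]}
    {D M : ℕ} (hN : D + M = N) (dh : h.degree < M) (dΨ : Ψ.degree < D) :
    ∑ j, nodalWeight Finset.univ t j * h.eval (t j) * Ψ.eval (t j) = 0 := by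
  by_cases h1 : h = 0
  · simp [h1]
  by_cases h2 : Ψ = 0
  · simp [h2]
  rw [← natDegree_lt_iff_degree_lt h1] at dh
  rw [← natDegree_lt_iff_degree_lt h2] at dΨ
  have h3 : (h * Ψ).natDegree < N - 1 := natDegree_mul_le.trans_lt (by omega)
  have h4 := coeff_eq_sum (s := Finset.univ) ht.injOn (P := h * Ψ)
    (degree_le_natDegree.trans_lt (Nat.cast_lt.2 (by simp; omega)))
  rw [coeff_eq_zero_of_natDegree_lt (by simpa using h3)] at h4
  rw [h4]
  refine Finset.sum_congr rfl fun j _ => ?_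
  rw [nodalWeight, Finset.prod_inv_distrib, eval_mul]
  ring

theorem barycentric {N : ℕ} {t : Fin N → ℂ} (ht : Function.Injective t) {G : ℂ[X]}
    (dG : G.degree < N) {z : ℂ} (hz : ∀ j, z ≠ t j) : G.eval z = (nodal Finset.univ t).eval z *
      ∑ j, nodalWeight Finset.univ t j * (z - t j)⁻¹ * G.eval (t j) := by
  rw [← eval_interpolate_not_at_node _ fun j _ => hz j,
    ← eq_interpolate ht.injOn (by simpa using dG)]

theorem top {n D M : ℕ} {v : Fin n → ℂ} {t : Fin (D + M) → ℂ} (hv : Function.Injective v)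
    (ht : Function.Injective t) (rv : ∀ i, conj (v i) = v i) (rt : ∀ j, conj (t j) = t j)
    (hvt : ∀ j i, t j ≠ v i)
    (h : SP D M D fun (S : Finset (Fin n)) z => (conj ((nodal S v).eval z))⁻¹) :
    ∃ c : Fin (D + M) → Fin n → ℂ, ∀ S : Finset (Fin n), S.card = D + 1 → ∀ p q : Fin n → ℂ,
      (∀ i ∉ S, p i = 0) → (∀ i ∉ S, q i = 0) → (∀ i, im2 (p i) (q i) = 0) →
      (∀ j, im2 (c j ⬝ᵥ p) (c j ⬝ᵥ q) = 0) → Dep p q := by
  obtain ⟨ι, _, ζ, κ, hζ, h⟩ := h
  have hζv : ∀ s i, ζ s ≠ v i := fun s i e => hζ s (by rw [e]; exact conj_eq_iff_im.1 (rv i))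
  have hζt : ∀ s j, conj (ζ s) ≠ t j := fun s j e => hζ s (by
    have := congrArg im e
    rw [conj_im, conj_eq_iff_im.1 (rt j)] at this
    exact neg_eq_zero.1 this)
  set a : Fin (D + M) → ι → ℂ := fun j s =>
    conj (κ s) * (nodal Finset.univ t).eval (conj (ζ s)) * (conj (ζ s) - t j)⁻¹ with ha
  set A : Fin (D + M) → Fin n → ℂ := fun j i => (t j - v i)⁻¹ with hA
  set L : Fin (D + M) → Fin n → ℂ := fun j => ∑ s, a j s • fun i => (ζ s - v i)⁻¹ with hL
  have h1 : ∀ S : Finset (Fin n), ∀ᶠ e : ℝ in 𝓝[≠] 0, S.card = D + 1 → ∀ p q : Fin n → ℂ,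
      (∀ i ∉ S, p i = 0) → (∀ i ∉ S, q i = 0) → (∀ i, im2 (p i) (q i) = 0) →
      (∀ j, im2 ((A j + e • L j) ⬝ᵥ p) ((A j + e • L j) ⬝ᵥ q) = 0) → Dep p q := by
    intro S
    by_cases hS : S.card = D + 1
    swap
    · exact Eventually.of_forall fun e h => absurd h hS
    have hW : ∀ (g : ℂ[X]), cj g = g → ∀ j, (((nodalWeight Finset.univ t j * g.eval (t j) *
        (nodal S v).eval (t j)).re : ℝ) : ℂ) =
        nodalWeight Finset.univ t j * g.eval (t j) * (nodal S v).eval (t j) := fun g hg j => by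
      apply conj_eq_iff_re.1
      rw [map_mul, map_mul, conj_nodalWeight rt, conj_nodal rv, rt, ← eval_cj_real g (rt j), hg]
    refine (eventually_top (H := {g : ℂ[X] // cj g = g ∧ g.degree < M}) S A L
      (fun g j => (nodalWeight Finset.univ t j * g.1.eval (t j) * (nodal S v).eval (t j)).re)
      (fun p q hp hq h2 h3 h4 => ?_) fun p q hp hq h2 g => ?_).mono fun e he _ => he
    · obtain ⟨P, hP⟩ := exists_num hS hv hp
      obtain ⟨Q, hQ⟩ := exists_num hS hv hq
      obtain ⟨Ψ, e1, e2, e3⟩ := hP.factor hS hv rv hQ h2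
      have e4 : Ψ = 0 := eq_zero_of_degree_lt_of_eval_index_eq_zero Finset.univ ht.injOn
        (e2.trans_le (Nat.cast_le.2 (by simp))) fun j _ => by
          rw [e3 _ (rt j) (hvt j), h3 j, ofReal_zero, mul_zero]
      rw [e4, mul_zero] at e1
      have key : ∀ (g : ℂ[X]), cj g = g → g.degree < M → ∀ {p q : Fin n → ℂ} {P Q : ℂ[X]},
          Num D S v p P → Num D S v q Q → ∑ j, (nodalWeight Finset.univ t j * g.eval (t j) *
            (nodal S v).eval (t j)).re * im2 (L j ⬝ᵥ p) (A j ⬝ᵥ q) =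
          ∑ s, (conj (κ s * (conj ((nodal S v).eval (ζ s)))⁻¹ * g.eval (ζ s)) *
            (P.eval (ζ s) * conj (Q.eval (ζ s)))).im := by
        intro g rg dg p q P Q hP hQ
        simp only [im2, ← im_ofReal_mul, hW g rg, ← im_sum]
        congr 1
        simp only [hL, sum_dotProduct, smul_dotProduct, smul_eq_mul, Finset.sum_mul,
          Finset.mul_sum]
        rw [Finset.sum_comm]
        refine Finset.sum_congr rfl fun s _ => ?_
        have d1 : (g * cj Q).degree < (D + M : ℕ) := by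
          rw [degree_mul, degree_cj, Nat.cast_add, add_comm (D : WithBot ℕ)]
          exact (add_le_add_right (degree_le_of_natDegree_le hQ.1) _).trans_lt
            (WithBot.add_lt_add_right WithBot.coe_ne_bot dg)
        have e5 := barycentric ht d1 (hζt s)
        have e6 := eval_cj g (ζ s)
        rw [rg] at e6
        rw [eval_mul, e6, eval_cj, Finset.mul_sum] at e5
        have e7 := eval_nodal_not_at_node (s := S) fun i _ => hζv s i
        rw [map_mul, map_mul, map_inv₀, conj_conj, hP.2.2 _ (hζv s)]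
        have e8 : ∀ x y z u w : ℂ, w ≠ 0 → x * w⁻¹ * y * (w * z * u) = x * z * (y * u) := by
          intro x y z u w hw
          field_simp
        rw [e8 _ _ _ _ _ e7, e5, Finset.mul_sum]
        refine Finset.sum_congr rfl fun j _ => ?_
        rw [eval_mul, eval_cj_real _ (rt j), hQ.2.2 _ (hvt j), map_mul, conj_nodal rv, rt]
        simp only [ha, hA]
        ring
      have e5 : Dep P Q := by
        by_contra hdep
        obtain ⟨g, b, c, hg, hb, hc, rb, rc, rfl, rfl⟩ := line_factor (wr_eq_zero e1) hdep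
        have dP := hP.1
        have dQ := hQ.1
        rw [natDegree_mul hg hb] at dP
        rw [natDegree_mul hg hc] at dQ
        refine hdep (Dep.mul_left g (h S g b c hg (by omega) rb rc (by omega) (by omega)
          fun u ru du => ?_))
        have e6 := h4 ⟨u, ru, du⟩
        have e7 : ∀ x y : ℂ, im2 x y = -im2 y x := fun x y => by
          simp only [im2, mul_im, conj_re, conj_im]
          ring
        simp only [e7 (A _ ⬝ᵥ p), mul_add, mul_neg, Finset.sum_add_distrib, Finset.sum_neg_distrib,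
          key u ru du hP hQ, key u ru du hQ hP] at e6
        apply mul_left_cancel₀ (two_ne_zero (α := ℝ))
        rw [mul_zero, ← e6, ← sub_eq_add_neg, ← Finset.sum_sub_distrib, Finset.mul_sum]
        refine Finset.sum_congr rfl fun s _ => ?_
        rw [mul_assoc _ (normSq _), ← im2_mul, ← eval_mul, ← eval_mul]
        simp only [im2]
        generalize κ s * _ * _ = x
        simp only [mul_im, mul_re, conj_re, conj_im]
        ring
      obtain ⟨b, c, hbc, e6⟩ := e5
      refine ⟨b, c, hbc, funext fun i => ?_⟩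
      simp only [Pi.add_apply, Pi.smul_apply, real_smul, Pi.zero_apply]
      by_cases hi : i ∈ S
      · have e7 := congrArg (fun f : ℂ[X] => f.eval (v i)) e6
        simp only [real_smul_poly, eval_add, eval_mul, eval_C, eval_zero, hP.2.1 i hi,
          hQ.2.1 i hi] at e7
        apply mul_left_cancel₀ (inv_ne_zero (nodalWeight_ne_zero hv.injOn hi))
        linear_combination e7
      · simp [hp i hi, hq i hi]
    · obtain ⟨P, hP⟩ := exists_num hS hv hp
      obtain ⟨Q, hQ⟩ := exists_num hS hv hq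
      obtain ⟨Ψ, -, e2, e3⟩ := hP.factor hS hv rv hQ h2
      rw [← ofReal_eq_zero, ← sum_nodalWeight_eval ht rfl g.2.2 e2, ofReal_sum]
      refine Finset.sum_congr rfl fun j _ => ?_
      rw [ofReal_mul, hW _ g.2.1, e3 _ (rt j) (hvt j), mul_assoc]
  obtain ⟨e, he⟩ := (eventually_all.2 h1).exists
  exact ⟨fun j => A j + e • L j, he⟩

end Pool.Agent.P.MP_32bf8a_an.PR
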